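import Pool.Agent.helper60.EPT.SpecS

set_option autoImplicit false

namespace Pool.Agent.EPT

open D

private lemma DCV_one (v : D → Bool) (c : D) (h1 : 1 ≤ c.toList.length) (h3 : c.toList.length ≤ 3) :
    (LitT v (cv1 c).fst ∨ LitT v (cv1 c).snd.fst ∨ LitT v (cv1 c).snd.snd) ↔ ∃ l ∈ cs c, LitT v l := by
  cases c with
  | nil => simp at h1
  | cons a r =>
    cases r with
    | nil => simp [cv1, cs]
    | cons b r =>
      cases r with
      | nil =>
        simp only [cv1, cs, fst_cons, snd_cons, toList_cons, toList_nil, List.toFinset_cons, List.toFinset_nil,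
          if_true, reduceCtorEq, if_false, Finset.mem_insert, insert_empty_eq, Finset.mem_singleton]
        constructor
        · rintro (h | h | h)
          · exact ⟨a, Or.inl rfl, h⟩
          · exact ⟨b, Or.inr rfl, h⟩
          · exact ⟨a, Or.inl rfl, h⟩
        · rintro ⟨l, (rfl | rfl), h⟩
          · exact Or.inl h
          · exact Or.inr (Or.inl h)
      | cons d r =>
        cases r with
        | nil =>
          simp only [cv1, cs, fst_cons, snd_cons, toList_cons, toList_nil, List.toFinset_cons, List.toFinset_nil,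
            reduceCtorEq, if_false, Finset.mem_insert, insert_empty_eq, Finset.mem_singleton]
          constructor
          · rintro (h | h | h)
            · exact ⟨a, Or.inl rfl, h⟩
            · exact ⟨b, Or.inr (Or.inl rfl), h⟩
            · exact ⟨d, Or.inr (Or.inr rfl), h⟩
          · rintro ⟨l, (rfl | rfl | rfl), h⟩
            · exact Or.inl h
            · exact Or.inr (Or.inl h)
            · exact Or.inr (Or.inr h)
        | cons e r => simp at h3; omega

theorem DCV : DCV_stmt := by
  intro F hF
  have e1 : (cv F).toList = F.toList.map cv1 := by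
    unfold cv
    exact toList_ofList _
  refine ⟨?_, by rw [e1, List.length_map]⟩
  unfold Sat3
  rw [e1]
  have key : ∀ v : D → Bool, (∀ c ∈ F.toList.map cv1, LitT v c.fst ∨ LitT v c.snd.fst ∨ LitT v c.snd.snd) ↔
      SatF (LitT v) (fs F) := by
    intro v
    unfold SatF fs
    constructor
    · intro h C hC
      rw [List.mem_toFinset, List.mem_map] at hC
      obtain ⟨c, hc, rfl⟩ := hC
      have h2 := hF c hc
      exact (DCV_one v c h2.1 h2.2).1 (h _ (List.mem_map.2 ⟨c, hc, rfl⟩))
    · intro h c' hc'
      rw [List.mem_map] at hc'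
      obtain ⟨c, hc, rfl⟩ := hc'
      have h2 := hF c hc
      exact (DCV_one v c h2.1 h2.2).2 (h _ (List.mem_toFinset.2 (List.mem_map.2 ⟨c, hc, rfl⟩)))
  constructor
  · rintro ⟨v, hv⟩
    exact ⟨v, (key v).1 hv⟩
  · rintro ⟨v, hv⟩
    exact ⟨v, (key v).2 hv⟩

end Pool.Agent.EPT
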