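import Pool.Agent.helper60.EPT.Spec

set_option autoImplicit false

namespace Pool.Agent.EPT

open D

/-- the prefix code -/
private def NDT_code : D → List Bool
  | nil => [false]
  | cons a b => true :: (NDT_code a ++ NDT_code b)

private lemma NDT_len (x : D) : (NDT_code x).length = x.size := by
  induction x with
  | nil => rfl
  | cons a b iha ihb =>
    simp only [NDT_code, List.length_cons, List.length_append, iha, ihb, size_cons]

private lemma NDT_pre (x : D) : ∀ (y : D) (r s : List Bool), NDT_code x ++ r = NDT_code y ++ s → x = y ∧ r = s := by
  induction x with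
  | nil =>
    intro y r s h
    cases y with
    | nil =>
      refine ⟨rfl, ?_⟩
      simpa [NDT_code] using h
    | cons a b => simp [NDT_code] at h
  | cons a b iha ihb =>
    intro y r s h
    cases y with
    | nil => simp [NDT_code] at h
    | cons a' b' =>
      simp only [NDT_code, List.cons_append, List.append_assoc, List.cons.injEq, true_and] at h
      obtain ⟨h1, h2⟩ := iha a' _ _ h
      obtain ⟨h3, h4⟩ := ihb b' _ _ h2
      exact ⟨by rw [h1, h3], h4⟩

private lemma NDT_card (j : ℕ) (s : Finset D) (hs : ∀ x ∈ s, x.size ≤ j) : s.card ≤ 2 ^ j := by
  classical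
  have h := Finset.card_le_card_of_injOn (s := s) (t := (Finset.univ : Finset (Fin j → Bool)))
    (fun x => fun i : Fin j => (NDT_code x ++ List.replicate (j - x.size) false).getD i.1 false)
    (fun x _ => Finset.mem_coe.2 (Finset.mem_univ _)) (by
      intro x hx y hy hxy
      have hx' := hs x (Finset.mem_coe.1 hx)
      have hy' := hs y (Finset.mem_coe.1 hy)
      have h1 : (NDT_code x ++ List.replicate (j - x.size) false).length = j := by
        rw [List.length_append, NDT_len, List.length_replicate]
        omega
      have h2 : (NDT_code y ++ List.replicate (j - y.size) false).length = j := by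
        rw [List.length_append, NDT_len, List.length_replicate]
        omega
      have h3 : NDT_code x ++ List.replicate (j - x.size) false =
          NDT_code y ++ List.replicate (j - y.size) false := by
        apply List.ext_getElem (by rw [h1, h2])
        intro i hi1 hi2
        have h4 := congrFun hxy ⟨i, by rw [h1] at hi1; exact hi1⟩
        simp only at h4
        rw [List.getD_eq_getElem _ _ hi1, List.getD_eq_getElem _ _ hi2] at h4
        exact h4
      exact (NDT_pre x y _ _ h3).1)
  refine h.trans ?_
  rw [Finset.card_univ, Fintype.card_fun, Fintype.card_bool, Fintype.card_fin]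

private lemma NDT_sum (j : ℕ) (l : List D) :
    (l.filter (fun x => decide (j ≤ x.size))).length * j ≤ (l.map size).sum := by
  induction l with
  | nil => simp
  | cons a l ih =>
    rw [List.filter_cons, List.map_cons, List.sum_cons]
    split_ifs with h
    · rw [List.length_cons, Nat.succ_mul]
      have h1 : j ≤ a.size := by simpa using h
      omega
    · omega

private lemma NDT_split (j : ℕ) (l : List D) :
    l.length = (l.filter (fun x => decide (j ≤ x.size))).length + (l.filter (fun x => !decide (j ≤ x.size))).length := by
  induction l with
  | nil => simp
  | cons a l ih =>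
    rw [List.filter_cons, List.filter_cons, List.length_cons]
    by_cases h : j ≤ a.size
    · simp only [h, decide_true, Bool.not_true, if_true, List.length_cons]
      simp only [Bool.false_eq_true, if_false]
      omega
    · simp only [h, decide_false, Bool.not_false, if_true, List.length_cons]
      simp only [Bool.false_eq_true, if_false]
      omega

private lemma NDT_ge (l : List D) : l.length ≤ (l.map size).sum := by
  induction l with
  | nil => simp
  | cons a l ih =>
    rw [List.map_cons, List.sum_cons, List.length_cons]
    have := size_pos a
    omega

theorem NDT : NDT_stmt := by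
  classical
  intro l hl
  have hge := NDT_ge l
  rcases Nat.eq_zero_or_pos l.length with h0 | hpos
  · rw [h0]
    omega
  · have hL : 2 ^ Nat.log 2 l.length ≤ l.length := Nat.pow_log_le_self 2 (by omega)
    generalize hLd : Nat.log 2 l.length = L at hL ⊢
    obtain ⟨j, hj⟩ : ∃ j, j = L / 2 := ⟨_, rfl⟩
    rcases Nat.eq_zero_or_pos j with hj0 | hjp
    · have h1 : L ≤ 1 := by omega
      calc l.length * L ≤ l.length * 1 := Nat.mul_le_mul_left _ h1
        _ ≤ 8 * (l.map size).sum := by omega
    · have h4 : 2 ^ j * 2 ^ j ≤ l.length := by
        rw [← pow_add]
        exact (Nat.pow_le_pow_right (by norm_num) (by omega)).trans hL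
      have h2 : 2 ≤ 2 ^ j := by
        calc 2 = 2 ^ 1 := by norm_num
          _ ≤ 2 ^ j := Nat.pow_le_pow_right (by norm_num) hjp
      have h5 : 2 * 2 ^ j ≤ l.length := (Nat.mul_le_mul_right _ h2).trans h4
      have hsm : (l.filter (fun x => !decide (j ≤ x.size))).length ≤ 2 ^ j := by
        have hnd : (l.filter (fun x => !decide (j ≤ x.size))).Nodup := hl.filter _
        rw [← List.toFinset_card_of_nodup hnd]
        apply NDT_card
        intro x hx
        rw [List.mem_toFinset, List.mem_filter] at hx
        have h6 := hx.2
        simp only [Bool.not_eq_true', decide_eq_false_iff_not, not_le] at h6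
        exact h6.le
      have hsp := NDT_split j l
      have hsu := NDT_sum j l
      have h7 : l.length ≤ 2 * (l.filter (fun x => decide (j ≤ x.size))).length := by omega
      have h8 : l.length * j ≤ 2 * (l.map size).sum := by
        calc l.length * j ≤ 2 * (l.filter (fun x => decide (j ≤ x.size))).length * j := Nat.mul_le_mul_right _ h7
          _ = 2 * ((l.filter (fun x => decide (j ≤ x.size))).length * j) := by ring
          _ ≤ 2 * (l.map size).sum := Nat.mul_le_mul_left _ hsu
      have h9 : L ≤ 3 * j := by omega
      calc l.length * L ≤ l.length * (3 * j) := Nat.mul_le_mul_left _ h9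
        _ = 3 * (l.length * j) := by ring
        _ ≤ 3 * (2 * (l.map size).sum) := Nat.mul_le_mul_left _ h8
        _ ≤ 8 * (l.map size).sum := by omega

end Pool.Agent.EPT
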